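import Mathlib

/-!
# Elementary conditional probabilities and conditional variances for finite-valued variables
-/

open MeasureTheory Set
open scoped BigOperators

namespace Pool.Agent.Lib.MP_03548f_an

variable {Ω : Type*} [MeasurableSpace Ω] (μ : Measure Ω)
variable {𝒵 : Type*}

/-- elementary conditional probability of the event `S` given `Z = z` -/
noncomputable def cp (S : Set Ω) (Z : Ω → 𝒵) (z : 𝒵) : ℝ :=
  μ.real (S ∩ Z ⁻¹' {z}) / μ.real (Z ⁻¹' {z})

lemma cp_nonneg (S : Set Ω) (Z : Ω → 𝒵) (z : 𝒵) : 0 ≤ cp μ S Z z :=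
  div_nonneg measureReal_nonneg measureReal_nonneg

lemma cp_le_one [IsFiniteMeasure μ] (S : Set Ω) (Z : Ω → 𝒵) (z : 𝒵) : cp μ S Z z ≤ 1 := by
  unfold cp
  apply div_le_one_of_le₀ (measureReal_mono inter_subset_right) measureReal_nonneg

lemma cp_mul [IsFiniteMeasure μ] (S : Set Ω) (Z : Ω → 𝒵) (z : 𝒵) :
    cp μ S Z z * μ.real (Z ⁻¹' {z}) = μ.real (S ∩ Z ⁻¹' {z}) := by
  unfold cp
  by_cases h : μ.real (Z ⁻¹' {z}) = 0
  · rw [h, mul_zero]
    have : μ.real (S ∩ Z ⁻¹' {z}) ≤ μ.real (Z ⁻¹' {z}) := measureReal_mono inter_subset_right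
    exact (le_antisymm (h ▸ this) measureReal_nonneg).symm
  · field_simp

/-- the residual `1_S - P(S | Z)` -/
noncomputable def res (S : Set Ω) (Z : Ω → 𝒵) (ω : Ω) : ℝ :=
  S.indicator (fun _ => (1 : ℝ)) ω - cp μ S Z (Z ω)

lemma abs_res_le [IsFiniteMeasure μ] (S : Set Ω) (Z : Ω → 𝒵) (ω : Ω) : |res μ S Z ω| ≤ 1 := by
  have h0 := cp_nonneg μ S Z (Z ω)
  have h1 := cp_le_one μ S Z (Z ω)
  unfold res
  by_cases h : ω ∈ S
  · rw [indicator_of_mem h, abs_le]; constructor <;> linarith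
  · rw [indicator_of_notMem h, abs_le]; constructor <;> linarith

section Finite

variable [Fintype 𝒵] [MeasurableSpace 𝒵] [MeasurableSingletonClass 𝒵]
variable [IsProbabilityMeasure μ]

lemma integrable_comp {Z : Ω → 𝒵} (hZ : Measurable Z) (g : 𝒵 → ℝ) :
    Integrable (fun ω => g (Z ω)) μ := by
  have hg : Measurable g := measurable_of_finite g
  obtain ⟨C, hC⟩ : ∃ C, ∀ z, ‖g z‖ ≤ C := by
    obtain ⟨C, hC⟩ := (Set.finite_range (fun z => ‖g z‖)).bddAbove
    exact ⟨C, fun z => hC ⟨z, rfl⟩⟩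
  exact Integrable.of_bound (hg.comp hZ).aestronglyMeasurable C
    (Filter.Eventually.of_forall fun ω => hC _)

lemma integral_indicator_comp {S : Set Ω} (hS : MeasurableSet S) {Z : Ω → 𝒵} (hZ : Measurable Z)
    (g : 𝒵 → ℝ) :
    ∫ ω, g (Z ω) * S.indicator (fun _ => (1 : ℝ)) ω ∂μ = ∑ z, g z * μ.real (S ∩ Z ⁻¹' {z}) := by
  have h1 : ∀ ω, g (Z ω) * S.indicator (fun _ => (1 : ℝ)) ω =
      ∑ z, (S ∩ Z ⁻¹' {z}).indicator (fun _ => g z) ω := by
    intro ω
    rw [Finset.sum_eq_single (Z ω)]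
    · by_cases h : ω ∈ S
      · rw [indicator_of_mem h, indicator_of_mem (show ω ∈ S ∩ Z ⁻¹' {Z ω} from ⟨h, rfl⟩), mul_one]
      · rw [indicator_of_notMem h, indicator_of_notMem (fun h' => h h'.1), mul_zero]
    · intro z _ hz
      rw [indicator_of_notMem]
      rintro ⟨_, h⟩
      exact hz h.symm
    · intro h; exact absurd (Finset.mem_univ _) h
  have hm : ∀ z, MeasurableSet (S ∩ Z ⁻¹' {z}) := fun z => hS.inter (hZ (measurableSet_singleton z))
  calc ∫ ω, g (Z ω) * S.indicator (fun _ => (1 : ℝ)) ω ∂μ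
      = ∫ ω, ∑ z, (S ∩ Z ⁻¹' {z}).indicator (fun _ => g z) ω ∂μ := by
        apply integral_congr_ae; exact Filter.Eventually.of_forall h1
    _ = ∑ z, ∫ ω, (S ∩ Z ⁻¹' {z}).indicator (fun _ => g z) ω ∂μ := by
        apply integral_finsetSum
        intro z _
        exact (integrable_const _).indicator (hm z)
    _ = ∑ z, g z * μ.real (S ∩ Z ⁻¹' {z}) := by
        apply Finset.sum_congr rfl
        intro z _
        rw [integral_indicator_const _ (hm z), smul_eq_mul, mul_comm]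

lemma integral_comp {Z : Ω → 𝒵} (hZ : Measurable Z) (g : 𝒵 → ℝ) :
    ∫ ω, g (Z ω) ∂μ = ∑ z, g z * μ.real (Z ⁻¹' {z}) := by
  have := integral_indicator_comp μ MeasurableSet.univ hZ g
  simpa using this

lemma measurable_res {S : Set Ω} (hS : MeasurableSet S) {Z : Ω → 𝒵} (hZ : Measurable Z) :
    Measurable (res μ S Z) := by
  unfold res
  exact (measurable_const.indicator hS).sub ((measurable_of_finite (cp μ S Z)).comp hZ)

lemma integrable_res {S : Set Ω} (hS : MeasurableSet S) {Z : Ω → 𝒵} (hZ : Measurable Z) :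
    Integrable (res μ S Z) μ :=
  Integrable.of_bound (measurable_res μ hS hZ).aestronglyMeasurable 1
    (Filter.Eventually.of_forall fun ω => abs_res_le μ S Z ω)

/-- orthogonality of the residual to functions of `Z` -/
lemma integral_mul_res {S : Set Ω} (hS : MeasurableSet S) {Z : Ω → 𝒵} (hZ : Measurable Z)
    (g : 𝒵 → ℝ) : ∫ ω, g (Z ω) * res μ S Z ω ∂μ = 0 := by
  have h1 : ∀ ω, g (Z ω) * res μ S Z ω = g (Z ω) * S.indicator (fun _ => (1 : ℝ)) ω -
      (fun z => g z * cp μ S Z z) (Z ω) := by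
    intro ω; simp only [res]; ring
  simp_rw [h1]
  rw [integral_sub, integral_indicator_comp μ hS hZ g,
    integral_comp μ hZ (fun z => g z * cp μ S Z z), ← Finset.sum_sub_distrib]
  · apply Finset.sum_eq_zero
    intro z _
    rw [mul_assoc, cp_mul]; ring
  · have : Integrable (fun ω => S.indicator (fun _ => (1 : ℝ)) ω * g (Z ω)) μ := by
      refine (integrable_comp μ hZ g).bdd_mul (c := 1) ?_ ?_
      · exact (measurable_const.indicator hS).aestronglyMeasurable
      · refine Filter.Eventually.of_forall fun ω => ?_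
        by_cases h : ω ∈ S
        · rw [indicator_of_mem h]; simp
        · rw [indicator_of_notMem h]; simp
    simpa [mul_comm] using this
  · exact integrable_comp μ hZ (fun z => g z * cp μ S Z z)

/-- conditional variance of `1_S` given `Z` -/
noncomputable def cvar (S : Set Ω) (Z : Ω → 𝒵) : ℝ := ∫ ω, (res μ S Z ω) ^ 2 ∂μ

lemma integrable_res_sq {S : Set Ω} (hS : MeasurableSet S) {Z : Ω → 𝒵} (hZ : Measurable Z) :
    Integrable (fun ω => (res μ S Z ω) ^ 2) μ := by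
  refine Integrable.of_bound ((measurable_res μ hS hZ).pow_const 2).aestronglyMeasurable 1
    (Filter.Eventually.of_forall fun ω => ?_)
  have := abs_res_le μ S Z ω
  rw [norm_pow, Real.norm_eq_abs]
  exact pow_le_one₀ (abs_nonneg _) this

lemma integrable_comp_mul_res {S : Set Ω} (hS : MeasurableSet S) {Z : Ω → 𝒵} (hZ : Measurable Z)
    {𝒴 : Type*} [Fintype 𝒴] [MeasurableSpace 𝒴] [MeasurableSingletonClass 𝒴]
    {Y : Ω → 𝒴} (hY : Measurable Y) (g : 𝒴 → ℝ) :
    Integrable (fun ω => g (Y ω) * res μ S Z ω) μ := by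
  have : Integrable (fun ω => res μ S Z ω * g (Y ω)) μ := by
    refine (integrable_comp μ hY g).bdd_mul (c := 1) ?_ ?_
    · exact (measurable_res μ hS hZ).aestronglyMeasurable
    · exact Filter.Eventually.of_forall fun ω => abs_res_le μ S Z ω
  simpa [mul_comm] using this

lemma integral_indicator_mul_res {S : Set Ω} (hS : MeasurableSet S) {Z : Ω → 𝒵}
    (hZ : Measurable Z) :
    ∫ ω, S.indicator (fun _ => (1 : ℝ)) ω * res μ S Z ω ∂μ = cvar μ S Z := by
  have h1 : ∀ ω, S.indicator (fun _ => (1 : ℝ)) ω * res μ S Z ω =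
      (res μ S Z ω) ^ 2 + cp μ S Z (Z ω) * res μ S Z ω := by
    intro ω; simp only [res]; ring
  simp_rw [h1]
  rw [integral_add (integrable_res_sq μ hS hZ) (integrable_comp_mul_res μ hS hZ hZ (cp μ S Z)),
    integral_mul_res μ hS hZ (cp μ S Z), add_zero]
  rfl

lemma cvar_eq_sum {S : Set Ω} (hS : MeasurableSet S) {Z : Ω → 𝒵} (hZ : Measurable Z) :
    cvar μ S Z = ∑ z, μ.real (Z ⁻¹' {z}) * (cp μ S Z z * (1 - cp μ S Z z)) := by
  rw [← integral_indicator_mul_res μ hS hZ]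
  have h1 : ∀ ω, S.indicator (fun _ => (1 : ℝ)) ω * res μ S Z ω =
      (fun z => 1 - cp μ S Z z) (Z ω) * S.indicator (fun _ => (1 : ℝ)) ω := by
    intro ω
    simp only [res]
    by_cases h : ω ∈ S
    · rw [indicator_of_mem h]; ring
    · rw [indicator_of_notMem h]; ring
  simp_rw [h1]
  rw [integral_indicator_comp μ hS hZ (fun z => 1 - cp μ S Z z)]
  apply Finset.sum_congr rfl
  intro z _
  rw [← cp_mul]; ring

omit [Fintype 𝒵] [MeasurableSpace 𝒵] [MeasurableSingletonClass 𝒵] [IsProbabilityMeasure μ] in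
lemma cvar_nonneg (S : Set Ω) (Z : Ω → 𝒵) : 0 ≤ cvar μ S Z :=
  integral_nonneg fun _ => sq_nonneg _

/-- conditioning on more information decreases the conditional variance -/
lemma cvar_anti {S : Set Ω} (hS : MeasurableSet S) {Z : Ω → 𝒵} (hZ : Measurable Z)
    {𝒴 : Type*} [Fintype 𝒴] [MeasurableSpace 𝒴] [MeasurableSingletonClass 𝒴]
    (φ : 𝒵 → 𝒴) : cvar μ S Z ≤ cvar μ S (φ ∘ Z) := by
  have hY : Measurable (φ ∘ Z) := (measurable_of_finite φ).comp hZ
  set d : 𝒵 → ℝ := fun z => cp μ S Z z - cp μ S (φ ∘ Z) (φ z) with hd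
  have h1 : ∀ ω, (res μ S (φ ∘ Z) ω) ^ 2 =
      ((res μ S Z ω) ^ 2 + (2 * d (Z ω)) * res μ S Z ω) + (d (Z ω)) ^ 2 := by
    intro ω
    simp only [res, hd, Function.comp]
    ring
  unfold cvar
  simp_rw [h1]
  rw [integral_add, integral_add, integral_mul_res μ hS hZ (fun z => 2 * d z)]
  · have : 0 ≤ ∫ ω, d (Z ω) ^ 2 ∂μ := integral_nonneg fun ω => sq_nonneg _
    linarith
  · exact integrable_res_sq μ hS hZ
  · exact integrable_comp_mul_res μ hS hZ hZ (fun z => 2 * d z)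
  · exact (integrable_res_sq μ hS hZ).add (integrable_comp_mul_res μ hS hZ hZ (fun z => 2 * d z))
  · exact integrable_comp μ hZ (fun z => (d z) ^ 2)

end Finite

/-- `-t log t ≤ ε + t (1 - t) / ε` on `[0,1]`. -/
lemma negMulLog_le {t ε : ℝ} (h0 : 0 ≤ t) (h1 : t ≤ 1) (hε : 0 < ε) :
    Real.negMulLog t ≤ ε + (t * (1 - t)) / ε := by
  have hs0 : 0 ≤ Real.sqrt t := Real.sqrt_nonneg t
  have hs1 : Real.sqrt t ≤ 1 := by
    rw [← Real.sqrt_one]; exact Real.sqrt_le_sqrt h1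
  have hsq : Real.sqrt t * Real.sqrt t = t := Real.mul_self_sqrt h0
  -- negMulLog t ≤ 2 sqrt t (1 - sqrt t)
  have key : Real.negMulLog t ≤ 2 * (Real.sqrt t * (1 - Real.sqrt t)) := by
    rcases eq_or_lt_of_le h0 with h | h
    · rw [← h]; simp
    · have hspos : 0 < Real.sqrt t := Real.sqrt_pos.mpr h
      have hlog : Real.log t = 2 * Real.log (Real.sqrt t) := by
        rw [Real.log_sqrt h0]; ring
      have hl : Real.log ((Real.sqrt t)⁻¹) ≤ (Real.sqrt t)⁻¹ - 1 :=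
        Real.log_le_sub_one_of_pos (inv_pos.mpr hspos)
      rw [Real.log_inv] at hl
      unfold Real.negMulLog
      rw [hlog]
      have h3 : -t * (2 * Real.log (Real.sqrt t)) = 2 * (t * (-Real.log (Real.sqrt t))) := by ring
      rw [h3]
      have h4 : t * (-Real.log (Real.sqrt t)) ≤ t * ((Real.sqrt t)⁻¹ - 1) :=
        mul_le_mul_of_nonneg_left hl h0
      have h5 : t * ((Real.sqrt t)⁻¹ - 1) = Real.sqrt t * (1 - Real.sqrt t) := by
        nth_rewrite 1 [← hsq]
        field_simp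
      linarith
  -- square
  set x := Real.sqrt t * (1 - Real.sqrt t) with hx
  have hx0 : 0 ≤ x := mul_nonneg hs0 (by linarith)
  have hx2 : x ^ 2 ≤ t * (1 - t) := by
    have : x ^ 2 = t * (1 - Real.sqrt t) ^ 2 := by
      rw [hx, mul_pow, sq (Real.sqrt t), hsq]
    rw [this]
    apply mul_le_mul_of_nonneg_left _ h0
    nlinarith
  have h6 : 2 * x ≤ ε + x ^ 2 / ε := by
    have h7 : 0 ≤ (x - ε) ^ 2 / ε := by positivity
    have h8 : (x - ε) ^ 2 / ε = x ^ 2 / ε - 2 * x + ε := by field_simp; ring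
    linarith
  have h9 : x ^ 2 / ε ≤ (t * (1 - t)) / ε := div_le_div_of_nonneg_right hx2 hε.le
  linarith

section Entropy

variable [Fintype 𝒵] [MeasurableSpace 𝒵] [MeasurableSingletonClass 𝒵]
variable [IsProbabilityMeasure μ]
variable {A : Type*} [Fintype A] [MeasurableSpace A] [MeasurableSingletonClass A]

omit [Fintype 𝒵] in
lemma sum_cp_eq_one {W : Ω → A} (hW : Measurable W) {Z : Ω → 𝒵} (hZ : Measurable Z) (z : 𝒵)
    (hz : μ.real (Z ⁻¹' {z}) ≠ 0) : ∑ a, cp μ (W ⁻¹' {a}) Z z = 1 := by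
  unfold cp
  rw [← Finset.sum_div, div_eq_one_iff_eq hz]
  have h := integral_indicator_comp μ (hZ (measurableSet_singleton z)) hW (fun _ => (1 : ℝ))
  simp only [one_mul] at h
  rw [integral_indicator_const _ (hZ (measurableSet_singleton z)), smul_eq_mul, mul_one] at h
  rw [h]
  exact Finset.sum_congr rfl fun a _ => by rw [inter_comm]

lemma entropy_le {W : Ω → A} (hW : Measurable W) {Z : Ω → 𝒵} (hZ : Measurable Z) {ε : ℝ}
    (hε : 0 < ε) :
    (∑ z, ∑ a, Real.negMulLog (μ.real (W ⁻¹' {a} ∩ Z ⁻¹' {z}))) -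
      ∑ z, Real.negMulLog (μ.real (Z ⁻¹' {z})) ≤
      ε * (Fintype.card A) + (∑ a, cvar μ (W ⁻¹' {a}) Z) / ε := by
  have hcv : ∀ a, cvar μ (W ⁻¹' {a}) Z =
      ∑ z, μ.real (Z ⁻¹' {z}) * (cp μ (W ⁻¹' {a}) Z z * (1 - cp μ (W ⁻¹' {a}) Z z)) :=
    fun a => cvar_eq_sum μ (hW (measurableSet_singleton a)) hZ
  have hterm : ∀ z, (∑ a, Real.negMulLog (μ.real (W ⁻¹' {a} ∩ Z ⁻¹' {z}))) -
      Real.negMulLog (μ.real (Z ⁻¹' {z})) ≤
      μ.real (Z ⁻¹' {z}) * ∑ a, (ε + (cp μ (W ⁻¹' {a}) Z z * (1 - cp μ (W ⁻¹' {a}) Z z)) / ε) := by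
    intro z
    by_cases hz : μ.real (Z ⁻¹' {z}) = 0
    · have h0 : ∀ a, μ.real (W ⁻¹' {a} ∩ Z ⁻¹' {z}) = 0 := by
        intro a
        have : μ.real (W ⁻¹' {a} ∩ Z ⁻¹' {z}) ≤ μ.real (Z ⁻¹' {z}) :=
          measureReal_mono inter_subset_right
        exact le_antisymm (hz ▸ this) measureReal_nonneg
      simp [h0, hz]
    · have h1 : ∀ a, Real.negMulLog (μ.real (W ⁻¹' {a} ∩ Z ⁻¹' {z})) =
          μ.real (Z ⁻¹' {z}) * Real.negMulLog (cp μ (W ⁻¹' {a}) Z z) +
          cp μ (W ⁻¹' {a}) Z z * Real.negMulLog (μ.real (Z ⁻¹' {z})) := by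
        intro a
        rw [← cp_mul, Real.negMulLog_mul]
      simp_rw [h1]
      rw [Finset.sum_add_distrib, ← Finset.sum_mul, sum_cp_eq_one μ hW hZ z hz, one_mul,
        add_sub_cancel_right, ← Finset.mul_sum]
      apply mul_le_mul_of_nonneg_left _ measureReal_nonneg
      apply Finset.sum_le_sum
      intro a _
      exact negMulLog_le (cp_nonneg μ _ _ _) (cp_le_one μ _ _ _) hε
  have hsum1 : ∑ z, μ.real (Z ⁻¹' {z}) = 1 := by
    have h := integral_comp μ hZ (fun _ => (1 : ℝ))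
    simp only [integral_const, one_mul] at h
    simpa using h.symm
  calc _ = ∑ z, ((∑ a, Real.negMulLog (μ.real (W ⁻¹' {a} ∩ Z ⁻¹' {z}))) -
      Real.negMulLog (μ.real (Z ⁻¹' {z}))) := by rw [Finset.sum_sub_distrib]
    _ ≤ ∑ z, μ.real (Z ⁻¹' {z}) *
        ∑ a, (ε + (cp μ (W ⁻¹' {a}) Z z * (1 - cp μ (W ⁻¹' {a}) Z z)) / ε) :=
        Finset.sum_le_sum fun z _ => hterm z
    _ = ε * (Fintype.card A) + (∑ a, cvar μ (W ⁻¹' {a}) Z) / ε := by
        simp_rw [Finset.sum_add_distrib, mul_add, Finset.sum_const, Finset.card_univ, nsmul_eq_mul,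
          ← Finset.sum_div]
        rw [Finset.sum_add_distrib, ← Finset.sum_mul, hsum1, one_mul, mul_comm ε]
        congr 1
        simp_rw [hcv]
        rw [Finset.sum_comm, Finset.sum_div]
        apply Finset.sum_congr rfl
        intro z _
        rw [← Finset.mul_sum, mul_div_assoc]

end Entropy

end Pool.Agent.Lib.MP_03548f_an
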