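import Pool.Agent.Lib.MP_03548f_an.CondVar

/-!
# Couplings with density a product of `1 + (causal residual) * (anticausal residual)`
-/

open MeasureTheory Set
open scoped BigOperators

namespace Pool.Agent.Lib.MP_03548f_an

section Sequence

variable {Ω : Type*} [MeasurableSpace Ω] (μ : Measure Ω) [IsProbabilityMeasure μ]
variable {A : Type*}

/-- the word `(X 0, …, X (n-1))` -/
def word (X : ℕ → Ω → A) (n : ℕ) (ω : Ω) : Fin n → A := fun i => X i ω

/-- `F` is a function of `(X 0, …, X (n-1))` -/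
def Adap (X : ℕ → Ω → A) (n : ℕ) (F : Ω → ℝ) : Prop :=
  ∃ G : (Fin n → A) → ℝ, ∀ ω, F ω = G (word X n ω)

omit [MeasurableSpace Ω] in
lemma Adap.mono {X : ℕ → Ω → A} {n m : ℕ} (h : n ≤ m) {F : Ω → ℝ} (hF : Adap X n F) :
    Adap X m F := by
  obtain ⟨G, hG⟩ := hF
  exact ⟨fun c => G fun i => c (Fin.castLE h i), fun ω => hG ω⟩

omit [MeasurableSpace Ω] in
lemma Adap.mul {X : ℕ → Ω → A} {n : ℕ} {F F' : Ω → ℝ} (hF : Adap X n F) (hF' : Adap X n F') :
    Adap X n (fun ω => F ω * F' ω) := by
  obtain ⟨G, hG⟩ := hF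
  obtain ⟨G', hG'⟩ := hF'
  exact ⟨fun c => G c * G' c, fun ω => by simp only [hG, hG']⟩

omit [MeasurableSpace Ω] in
lemma Adap.add {X : ℕ → Ω → A} {n : ℕ} {F F' : Ω → ℝ} (hF : Adap X n F) (hF' : Adap X n F') :
    Adap X n (fun ω => F ω + F' ω) := by
  obtain ⟨G, hG⟩ := hF
  obtain ⟨G', hG'⟩ := hF'
  exact ⟨fun c => G c + G' c, fun ω => by simp only [hG, hG']⟩

omit [MeasurableSpace Ω] in
lemma adap_const (X : ℕ → Ω → A) (n : ℕ) (c : ℝ) : Adap X n (fun _ => c) :=
  ⟨fun _ => c, fun _ => rfl⟩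

omit [MeasurableSpace Ω] in
lemma adap_prod {X : ℕ → Ω → A} {n : ℕ} (s : Finset ℕ) (F : ℕ → Ω → ℝ)
    (hF : ∀ i ∈ s, Adap X n (F i)) : Adap X n (fun ω => ∏ i ∈ s, F i ω) := by
  classical
  induction s using Finset.induction_on with
  | empty => simpa using adap_const X n 1
  | insert a s ha ih =>
    simp_rw [Finset.prod_insert ha]
    exact (hF a (Finset.mem_insert_self a s)).mul
      (ih fun i hi => hF i (Finset.mem_insert_of_mem hi))

omit [MeasurableSpace Ω] in
lemma adap_indicator (X : ℕ → Ω → A) (w : A) (n : ℕ) :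
    Adap X (n + 1) (fun ω => (X n ⁻¹' {w}).indicator (fun _ => (1 : ℝ)) ω) := by
  classical
  refine ⟨fun c => if c (Fin.last n) = w then 1 else 0, fun ω => ?_⟩
  beta_reduce
  by_cases h : X n ω = w
  · have h' : ω ∈ X n ⁻¹' {w} := h
    rw [indicator_of_mem h', if_pos]
    simpa [word] using h
  · have h' : ω ∉ X n ⁻¹' {w} := h
    rw [indicator_of_notMem h', if_neg]
    simpa [word] using h

/-- the residual of `1[X n = w]` given `(X 0, …, X (n-1))` -/
noncomputable def md (X : ℕ → Ω → A) (w : A) (n : ℕ) : Ω → ℝ := res μ (X n ⁻¹' {w}) (word X n)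

omit [IsProbabilityMeasure μ] in
lemma adap_md (X : ℕ → Ω → A) (w : A) (n : ℕ) : Adap X (n + 1) (md μ X w n) := by
  have h1 : Adap X (n + 1) (fun ω => (X n ⁻¹' {w}).indicator (fun _ => (1 : ℝ)) ω +
      (-1) * cp μ (X n ⁻¹' {w}) (word X n) (word X n ω)) := by
    refine (adap_indicator X w n).add ((adap_const X (n + 1) (-1)).mul ?_)
    refine Adap.mono (Nat.le_succ n) ⟨cp μ (X n ⁻¹' {w}) (word X n), fun ω => rfl⟩
  obtain ⟨G, hG⟩ := h1
  refine ⟨G, fun ω => ?_⟩
  rw [← hG]
  simp only [md, res]; ring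

lemma abs_md_le (X : ℕ → Ω → A) (w : A) (n : ℕ) (ω : Ω) : |md μ X w n ω| ≤ 1 :=
  abs_res_le μ _ _ ω

variable [Fintype A] [MeasurableSpace A] [MeasurableSingletonClass A]

omit [Fintype A] [MeasurableSingletonClass A] in
lemma measurable_word {X : ℕ → Ω → A} (hX : ∀ n, Measurable (X n)) (n : ℕ) :
    Measurable (word X n) :=
  measurable_pi_lambda _ fun i => hX i

omit [IsProbabilityMeasure μ] in
lemma measurable_md {X : ℕ → Ω → A} (hX : ∀ n, Measurable (X n)) (w : A) (n : ℕ) :
    Measurable (md μ X w n) := by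
  have hS : MeasurableSet (X n ⁻¹' {w}) := hX n (measurableSet_singleton w)
  unfold md res
  exact (measurable_const.indicator hS).sub
    ((measurable_of_finite (cp μ (X n ⁻¹' {w}) (word X n))).comp (measurable_word hX n))

lemma Adap.integrable {X : ℕ → Ω → A} (hX : ∀ n, Measurable (X n)) {n : ℕ} {F : Ω → ℝ}
    (hF : Adap X n F) : Integrable F μ := by
  obtain ⟨G, hG⟩ := hF
  have : F = fun ω => G (word X n ω) := funext hG
  rw [this]
  exact integrable_comp μ (measurable_word hX n) G

lemma Adap.integral_mul_md {X : ℕ → Ω → A} (hX : ∀ n, Measurable (X n)) {n : ℕ} {F : Ω → ℝ}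
    (hF : Adap X n F) (w : A) : ∫ ω, F ω * md μ X w n ω ∂μ = 0 := by
  obtain ⟨G, hG⟩ := hF
  simp_rw [hG]
  exact integral_mul_res μ (hX n (measurableSet_singleton w)) (measurable_word hX n) G

/-- the martingale product formula -/
lemma Adap.integral_prod {X : ℕ → Ω → A} (hX : ∀ n, Measurable (X n)) {k : ℕ} {F : Ω → ℝ}
    (hF : Adap X k F) (w : A) (β : ℕ → ℝ) {N : ℕ} (hkN : k ≤ N) :
    ∫ ω, F ω * ∏ n ∈ Finset.Ico k N, (1 + β n * md μ X w n ω) ∂μ = ∫ ω, F ω ∂μ := by
  induction N, hkN using Nat.le_induction with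
  | base => simp
  | succ N hN ih =>
    have hP : Adap X N (fun ω => F ω * ∏ n ∈ Finset.Ico k N, (1 + β n * md μ X w n ω)) := by
      refine (hF.mono hN).mul (adap_prod _ _ fun i hi => ?_)
      have hi' : i + 1 ≤ N := (Finset.mem_Ico.mp hi).2
      exact (adap_const X N 1).add ((adap_const X N (β i)).mul ((adap_md μ X w i).mono hi'))
    have h1 : ∀ ω, F ω * ∏ n ∈ Finset.Ico k (N + 1), (1 + β n * md μ X w n ω) =
        (F ω * ∏ n ∈ Finset.Ico k N, (1 + β n * md μ X w n ω)) +
        β N * ((F ω * ∏ n ∈ Finset.Ico k N, (1 + β n * md μ X w n ω)) * md μ X w N ω) := by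
      intro ω
      rw [Finset.prod_Ico_succ_top hN]
      ring
    simp_rw [h1]
    rw [integral_add (hP.integrable μ hX), integral_const_mul, hP.integral_mul_md μ hX w, mul_zero,
      add_zero, ih]
    refine Integrable.const_mul ?_ _
    exact ((hP.mono (Nat.le_succ N)).mul (adap_md μ X w N)).integrable μ hX

/-- conditional variance of `1[X n = w]` given `(X 0, …, X (n-1))` -/
noncomputable def mv (X : ℕ → Ω → A) (w : A) (n : ℕ) : ℝ := cvar μ (X n ⁻¹' {w}) (word X n)

end Sequence

section Coupling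

variable {Ω₁ Ω₂ : Type*} [MeasurableSpace Ω₁] [MeasurableSpace Ω₂]
variable (μ : Measure Ω₁) (ν : Measure Ω₂) [IsProbabilityMeasure μ] [IsProbabilityMeasure ν]
variable {A B : Type*} [Fintype A] [MeasurableSpace A] [MeasurableSingletonClass A]
variable [Fintype B] [MeasurableSpace B] [MeasurableSingletonClass B]

/-- the density -/
noncomputable def dens (X : ℕ → Ω₁ → A) (Y : ℕ → Ω₂ → B) (w : A) (v : B) (N : ℕ)
    (p : Ω₁ × Ω₂) : ℝ :=
  ∏ n ∈ Finset.range N, (1 + md μ X w n p.1 * md ν Y v (N - 1 - n) p.2)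

variable {X : ℕ → Ω₁ → A} {Y : ℕ → Ω₂ → B}

omit [IsProbabilityMeasure μ] [IsProbabilityMeasure ν] in
lemma measurable_dens (hX : ∀ n, Measurable (X n)) (hY : ∀ n, Measurable (Y n)) (w : A) (v : B)
    (N : ℕ) : Measurable (dens μ ν X Y w v N) := by
  unfold dens
  refine Finset.measurable_prod _ fun n _ => ?_
  exact measurable_const.add (((measurable_md μ hX w n).comp measurable_fst).mul
    ((measurable_md ν hY v _).comp measurable_snd))

omit [Fintype A] [MeasurableSpace A] [MeasurableSingletonClass A] [Fintype B] [MeasurableSpace B]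
  [MeasurableSingletonClass B] in
lemma factor_bounds (X : ℕ → Ω₁ → A) (Y : ℕ → Ω₂ → B) (w : A) (v : B) (n m : ℕ) (p : Ω₁ × Ω₂) :
    0 ≤ 1 + md μ X w n p.1 * md ν Y v m p.2 ∧ 1 + md μ X w n p.1 * md ν Y v m p.2 ≤ 2 := by
  have h1 := abs_md_le μ X w n p.1
  have h2 := abs_md_le ν Y v m p.2
  have h3 : |md μ X w n p.1 * md ν Y v m p.2| ≤ 1 := by
    rw [abs_mul]; exact mul_le_one₀ h1 (abs_nonneg _) h2
  rw [abs_le] at h3
  constructor <;> linarith [h3.1, h3.2]

omit [Fintype A] [MeasurableSpace A] [MeasurableSingletonClass A] [Fintype B] [MeasurableSpace B]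
  [MeasurableSingletonClass B] in
lemma dens_nonneg (w : A) (v : B) (N : ℕ) (p : Ω₁ × Ω₂) : 0 ≤ dens μ ν X Y w v N p :=
  Finset.prod_nonneg fun n _ => (factor_bounds μ ν X Y w v n _ p).1

omit [Fintype A] [MeasurableSpace A] [MeasurableSingletonClass A] [Fintype B] [MeasurableSpace B]
  [MeasurableSingletonClass B] in
lemma dens_le (w : A) (v : B) (N : ℕ) (p : Ω₁ × Ω₂) : dens μ ν X Y w v N p ≤ 2 ^ N := by
  have h := Finset.prod_le_prod (s := Finset.range N)
    (f := fun n => 1 + md μ X w n p.1 * md ν Y v (N - 1 - n) p.2) (g := fun _ => (2 : ℝ))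
    (fun n _ => (factor_bounds μ ν X Y w v n _ p).1)
    (fun n _ => (factor_bounds μ ν X Y w v n _ p).2)
  simpa [dens] using h

/-- integrating out the first variable -/
lemma integral_dens_left (hX : ∀ n, Measurable (X n)) (w : A) (v : B) (N : ℕ) (y : Ω₂) :
    ∫ x, dens μ ν X Y w v N (x, y) ∂μ = 1 := by
  have h := (adap_const X 0 1).integral_prod μ hX w (fun n => md ν Y v (N - 1 - n) y)
    (Nat.zero_le N)
  simp only [one_mul, Nat.Ico_zero_eq_range] at h
  unfold dens
  have h2 : ∀ x : Ω₁, ∏ n ∈ Finset.range N, (1 + md μ X w n x * md ν Y v (N - 1 - n) y) =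
      ∏ n ∈ Finset.range N, (1 + md ν Y v (N - 1 - n) y * md μ X w n x) :=
    fun x => Finset.prod_congr rfl fun n _ => by rw [mul_comm]
  simp only [h2, h]
  simp

omit [IsProbabilityMeasure μ] [IsProbabilityMeasure ν] [Fintype A] [MeasurableSpace A]
  [MeasurableSingletonClass A] [Fintype B] [MeasurableSpace B] [MeasurableSingletonClass B] in
lemma dens_reflect (w : A) (v : B) (N : ℕ) (p : Ω₁ × Ω₂) :
    dens μ ν X Y w v N p =
      ∏ j ∈ Finset.range N, (1 + md μ X w (N - 1 - j) p.1 * md ν Y v j p.2) := by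
  unfold dens
  rw [← Finset.prod_range_reflect]
  refine Finset.prod_congr rfl fun j hj => ?_
  have : N - 1 - (N - 1 - j) = j := by
    have := Finset.mem_range.mp hj
    omega
  rw [this]

lemma integral_dens_right (hY : ∀ n, Measurable (Y n)) (w : A) (v : B) (N : ℕ) (x : Ω₁) :
    ∫ y, dens μ ν X Y w v N (x, y) ∂ν = 1 := by
  have h := (adap_const Y 0 1).integral_prod ν hY v (fun n => md μ X w (N - 1 - n) x)
    (Nat.zero_le N)
  simp only [one_mul, Nat.Ico_zero_eq_range] at h
  simp only [dens_reflect, h]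
  simp

lemma integrable_dens (hX : ∀ n, Measurable (X n)) (hY : ∀ n, Measurable (Y n)) (w : A) (v : B)
    (N : ℕ) : Integrable (dens μ ν X Y w v N) (μ.prod ν) := by
  refine Integrable.of_bound (measurable_dens μ ν hX hY w v N).aestronglyMeasurable (2 ^ N)
    (Filter.Eventually.of_forall fun p => ?_)
  rw [Real.norm_eq_abs, abs_of_nonneg (dens_nonneg μ ν w v N p)]
  exact dens_le μ ν w v N p

/-- the exact formula for the joint probability -/
lemma integral_dens_pair (hX : ∀ n, Measurable (X n)) (hY : ∀ n, Measurable (Y n)) (w : A) (v : B)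
    {N k : ℕ} (hk : k < N) :
    ∫ p in (X k ⁻¹' {w}) ×ˢ (Y (N - 1 - k) ⁻¹' {v}), dens μ ν X Y w v N p ∂(μ.prod ν) =
      μ.real (X k ⁻¹' {w}) * ν.real (Y (N - 1 - k) ⁻¹' {v}) +
        mv μ X w k * mv ν Y v (N - 1 - k) := by
  set j := N - 1 - k with hj
  set S : Set Ω₁ := X k ⁻¹' {w} with hS
  set T : Set Ω₂ := Y j ⁻¹' {v} with hT
  have hSm : MeasurableSet S := hX k (measurableSet_singleton w)
  have hTm : MeasurableSet T := hY j (measurableSet_singleton v)
  -- write the set integral with indicators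
  let oS : Ω₁ → ℝ := S.indicator fun _ => 1
  let oT : Ω₂ → ℝ := T.indicator fun _ => 1
  have e1 : ∫ p in S ×ˢ T, dens μ ν X Y w v N p ∂(μ.prod ν) =
      ∫ p, oS p.1 * oT p.2 * dens μ ν X Y w v N p ∂(μ.prod ν) := by
    rw [← integral_indicator (hSm.prod hTm)]
    apply integral_congr_ae
    refine Filter.Eventually.of_forall fun p => ?_
    by_cases h1 : p.1 ∈ S
    · by_cases h2 : p.2 ∈ T
      · simp only [oS, oT]
        rw [indicator_of_mem (show p ∈ S ×ˢ T from ⟨h1, h2⟩), indicator_of_mem h1,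
          indicator_of_mem h2]; ring
      · simp only [oS, oT]
        rw [indicator_of_notMem (show p ∉ S ×ˢ T from fun h => h2 h.2), indicator_of_notMem h2]
        ring
    · simp only [oS, oT]
      rw [indicator_of_notMem (show p ∉ S ×ˢ T from fun h => h1 h.1), indicator_of_notMem h1]
      ring
  -- the truncated product
  let E : Ω₁ × Ω₂ → ℝ := fun p =>
    ∏ n ∈ Finset.range (k + 1), (1 + md μ X w n p.1 * md ν Y v (N - 1 - n) p.2)
  have hoS : Measurable oS := measurable_const.indicator hSm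
  have hoT : Measurable oT := measurable_const.indicator hTm
  have hoS1 : ∀ x, 0 ≤ oS x ∧ oS x ≤ 1 := by
    intro x
    by_cases h : x ∈ S
    · simp only [oS]; rw [indicator_of_mem h]; norm_num
    · simp only [oS]; rw [indicator_of_notMem h]; norm_num
  have hoT1 : ∀ x, 0 ≤ oT x ∧ oT x ≤ 1 := by
    intro x
    by_cases h : x ∈ T
    · simp only [oT]; rw [indicator_of_mem h]; norm_num
    · simp only [oT]; rw [indicator_of_notMem h]; norm_num
  have hoST : ∀ p : Ω₁ × Ω₂, ‖oS p.1 * oT p.2‖ ≤ 1 := by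
    intro p
    rw [norm_mul, Real.norm_eq_abs, Real.norm_eq_abs, abs_of_nonneg (hoS1 _).1,
      abs_of_nonneg (hoT1 _).1]
    exact mul_le_one₀ (hoS1 _).2 (hoT1 _).1 (hoT1 _).2
  have hEm : Measurable E := by
    refine Finset.measurable_prod _ fun n _ => ?_
    exact measurable_const.add (((measurable_md μ hX w n).comp measurable_fst).mul
      ((measurable_md ν hY v _).comp measurable_snd))
  have hEb : ∀ p, ‖E p‖ ≤ 2 ^ (k + 1) := by
    intro p
    have h0 : 0 ≤ E p := Finset.prod_nonneg fun n _ => (factor_bounds μ ν X Y w v n _ p).1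
    rw [Real.norm_eq_abs, abs_of_nonneg h0]
    have h := Finset.prod_le_prod (s := Finset.range (k + 1))
      (f := fun n => 1 + md μ X w n p.1 * md ν Y v (N - 1 - n) p.2) (g := fun _ => (2 : ℝ))
      (fun n _ => (factor_bounds μ ν X Y w v n _ p).1)
      (fun n _ => (factor_bounds μ ν X Y w v n _ p).2)
    simpa [E] using h
  have hEint : Integrable E (μ.prod ν) :=
    Integrable.of_bound hEm.aestronglyMeasurable (2 ^ (k + 1)) (Filter.Eventually.of_forall hEb)
  have hoSTm : AEStronglyMeasurable (fun p : Ω₁ × Ω₂ => oS p.1 * oT p.2) (μ.prod ν) :=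
    ((hoS.comp measurable_fst).mul (hoT.comp measurable_snd)).aestronglyMeasurable
  have hI1 : Integrable (fun p : Ω₁ × Ω₂ => oS p.1 * oT p.2 * dens μ ν X Y w v N p) (μ.prod ν) :=
    (integrable_dens μ ν hX hY w v N).bdd_mul hoSTm (Filter.Eventually.of_forall hoST)
  have hI2 : Integrable (fun p : Ω₁ × Ω₂ => oS p.1 * oT p.2 * E p) (μ.prod ν) :=
    hEint.bdd_mul hoSTm (Filter.Eventually.of_forall hoST)
  -- step 1: integrate out the causal factors with index `> k`
  have hsplit : ∀ x y, dens μ ν X Y w v N (x, y) = E (x, y) *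
      ∏ n ∈ Finset.Ico (k + 1) N, (1 + md ν Y v (N - 1 - n) y * md μ X w n x) := by
    intro x y
    simp only [dens, E]
    rw [← Finset.prod_range_mul_prod_Ico _ (show k + 1 ≤ N by omega)]
    congr 1
    exact Finset.prod_congr rfl fun n _ => by rw [mul_comm]
  have hadE : ∀ y, Adap X (k + 1) (fun x => oS x * oT y * E (x, y)) := by
    intro y
    refine ((adap_indicator X w k).mul (adap_const X (k + 1) (oT y))).mul (adap_prod _ _ ?_)
    intro n hn
    have hn' : n + 1 ≤ k + 1 := by
      have := Finset.mem_range.mp hn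
      omega
    exact (adap_const X (k + 1) 1).add (((adap_md μ X w n).mono hn').mul
      (adap_const X (k + 1) (md ν Y v (N - 1 - n) y)))
  have step1 : ∀ y, ∫ x, oS x * oT y * dens μ ν X Y w v N (x, y) ∂μ =
      ∫ x, oS x * oT y * E (x, y) ∂μ := by
    intro y
    have h := (hadE y).integral_prod μ hX w (fun n => md ν Y v (N - 1 - n) y)
      (show k + 1 ≤ N by omega)
    rw [← h]
    congr 1
    funext x
    rw [hsplit]
    ring
  have e2 : ∫ p, oS p.1 * oT p.2 * dens μ ν X Y w v N p ∂(μ.prod ν) =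
      ∫ p, oS p.1 * oT p.2 * E p ∂(μ.prod ν) := by
    rw [integral_prod_symm _ hI1, integral_prod_symm _ hI2]
    congr 1
    funext y
    exact step1 y
  -- step 2: integrate out the anticausal factors
  have hE2 : ∀ x y, E (x, y) = (1 + md μ X w k x * md ν Y v j y) *
      ∏ i ∈ Finset.Ico (j + 1) N, (1 + md μ X w (N - 1 - i) x * md ν Y v i y) := by
    intro x y
    simp only [E]
    rw [Finset.prod_range_succ, mul_comm]
    congr 1
    refine Finset.prod_nbij' (fun n => N - 1 - n) (fun i => N - 1 - i) ?_ ?_ ?_ ?_ ?_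
    · intro n hn
      have := Finset.mem_range.mp hn
      simp only [Finset.mem_Ico]
      omega
    · intro i hi
      have := Finset.mem_Ico.mp hi
      simp only [Finset.mem_range]
      omega
    · intro n hn
      have := Finset.mem_range.mp hn
      omega
    · intro i hi
      have := Finset.mem_Ico.mp hi
      omega
    · intro n hn
      have := Finset.mem_range.mp hn
      have h2 : N - 1 - (N - 1 - n) = n := by omega
      simp only [h2]
  have hjN : j + 1 ≤ N := by omega
  have step2 : ∀ x, ∫ y, oS x * oT y * E (x, y) ∂ν =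
      oS x * ν.real T + (oS x * md μ X w k x) * mv ν Y v j := by
    intro x
    have hadF : Adap Y (j + 1) (fun y => oS x * oT y * (1 + md μ X w k x * md ν Y v j y)) := by
      refine ((adap_const Y (j + 1) (oS x)).mul (adap_indicator Y v j)).mul ?_
      exact (adap_const Y (j + 1) 1).add ((adap_const Y (j + 1) (md μ X w k x)).mul
        (adap_md ν Y v j))
    have h := hadF.integral_prod ν hY v (fun i => md μ X w (N - 1 - i) x) hjN
    have h3 : ∀ y, oS x * oT y * E (x, y) = oS x * oT y * (1 + md μ X w k x * md ν Y v j y) *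
        ∏ n ∈ Finset.Ico (j + 1) N, (1 + md μ X w (N - 1 - n) x * md ν Y v n y) := by
      intro y
      rw [hE2]; ring
    simp_rw [h3]
    rw [h]
    have h4 : ∀ y, oS x * oT y * (1 + md μ X w k x * md ν Y v j y) =
        oS x * oT y + (oS x * md μ X w k x) * (oT y * md ν Y v j y) := by
      intro y; ring
    simp_rw [h4]
    rw [integral_add, integral_const_mul, integral_const_mul]
    · have h5 : ∫ y, oT y ∂ν = ν.real T := by
        simp only [oT]
        rw [integral_indicator_const _ hTm, smul_eq_mul, mul_one]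
      have h6 : ∫ y, oT y * md ν Y v j y ∂ν = mv ν Y v j :=
        integral_indicator_mul_res ν hTm (measurable_word hY j)
      rw [h5, h6]
    · exact ((adap_const Y (j + 1) (oS x)).mul (adap_indicator Y v j)).integrable ν hY
    · exact ((adap_const Y (j + 1) (oS x * md μ X w k x)).mul
        ((adap_indicator Y v j).mul (adap_md ν Y v j))).integrable ν hY
  have e3 : ∫ p, oS p.1 * oT p.2 * E p ∂(μ.prod ν) =
      ∫ x, (oS x * ν.real T + (oS x * md μ X w k x) * mv ν Y v j) ∂μ := by
    rw [integral_prod _ hI2]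
    congr 1
    funext x
    exact step2 x
  rw [e1, e2, e3, integral_add, integral_mul_const, integral_mul_const]
  · have h5 : ∫ x, oS x ∂μ = μ.real S := by
      simp only [oS]
      rw [integral_indicator_const _ hSm, smul_eq_mul, mul_one]
    have h6 : ∫ x, oS x * md μ X w k x ∂μ = mv μ X w k :=
      integral_indicator_mul_res μ hSm (measurable_word hX k)
    rw [h5, h6]
  · exact ((adap_indicator X w k).mul (adap_const X (k + 1) (ν.real T))).integrable μ hX
  · exact (((adap_indicator X w k).mul (adap_md μ X w k)).mul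
      (adap_const X (k + 1) (mv ν Y v j))).integrable μ hX

/-- the coupling -/
noncomputable def cpl (X : ℕ → Ω₁ → A) (Y : ℕ → Ω₂ → B) (w : A) (v : B) (N : ℕ) :
    Measure (Ω₁ × Ω₂) :=
  (μ.prod ν).withDensity fun p => ENNReal.ofReal (dens μ ν X Y w v N p)

lemma cpl_apply (hX : ∀ n, Measurable (X n)) (hY : ∀ n, Measurable (Y n)) (w : A) (v : B)
    (N : ℕ) {C : Set (Ω₁ × Ω₂)} (hC : MeasurableSet C) :
    cpl μ ν X Y w v N C = ENNReal.ofReal (∫ p in C, dens μ ν X Y w v N p ∂(μ.prod ν)) := by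
  unfold cpl
  rw [withDensity_apply _ hC, ofReal_integral_eq_lintegral_ofReal]
  · exact (integrable_dens μ ν hX hY w v N).integrableOn
  · exact Filter.Eventually.of_forall fun p => dens_nonneg μ ν w v N p

lemma cpl_fst (hX : ∀ n, Measurable (X n)) (hY : ∀ n, Measurable (Y n)) (w : A) (v : B)
    (N : ℕ) : (cpl μ ν X Y w v N).map Prod.fst = μ := by
  ext S hS
  rw [Measure.map_apply measurable_fst hS]
  unfold cpl
  have hm : Measurable fun p : Ω₁ × Ω₂ => ENNReal.ofReal (dens μ ν X Y w v N p) :=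
    (measurable_dens μ ν hX hY w v N).ennreal_ofReal
  rw [withDensity_apply _ (measurable_fst hS)]
  have h1 : (Prod.fst ⁻¹' S : Set (Ω₁ × Ω₂)) = S ×ˢ univ := by
    ext p; simp
  rw [h1, ← Measure.prod_restrict, Measure.restrict_univ, lintegral_prod _ hm.aemeasurable]
  have h2 : ∀ x, ∫⁻ y, ENNReal.ofReal (dens μ ν X Y w v N (x, y)) ∂ν = 1 := by
    intro x
    rw [← ofReal_integral_eq_lintegral_ofReal]
    · rw [integral_dens_right μ ν hY w v N x]; simp
    · refine Integrable.of_bound ((measurable_dens μ ν hX hY w v N).comp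
        measurable_prodMk_left).aestronglyMeasurable (2 ^ N) ?_
      refine Filter.Eventually.of_forall fun y => ?_
      rw [Real.norm_eq_abs, abs_of_nonneg (dens_nonneg μ ν w v N _)]
      exact dens_le μ ν w v N _
    · exact Filter.Eventually.of_forall fun y => dens_nonneg μ ν w v N _
  simp_rw [h2]
  simp

lemma cpl_snd (hX : ∀ n, Measurable (X n)) (hY : ∀ n, Measurable (Y n)) (w : A) (v : B)
    (N : ℕ) : (cpl μ ν X Y w v N).map Prod.snd = ν := by
  ext S hS
  rw [Measure.map_apply measurable_snd hS]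
  unfold cpl
  have hm : Measurable fun p : Ω₁ × Ω₂ => ENNReal.ofReal (dens μ ν X Y w v N p) :=
    (measurable_dens μ ν hX hY w v N).ennreal_ofReal
  rw [withDensity_apply _ (measurable_snd hS)]
  have h1 : (Prod.snd ⁻¹' S : Set (Ω₁ × Ω₂)) = univ ×ˢ S := by
    ext p; simp
  rw [h1, ← Measure.prod_restrict, Measure.restrict_univ, lintegral_prod_symm _ hm.aemeasurable]
  have h2 : ∀ y, ∫⁻ x, ENNReal.ofReal (dens μ ν X Y w v N (x, y)) ∂μ = 1 := by
    intro y
    rw [← ofReal_integral_eq_lintegral_ofReal]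
    · rw [integral_dens_left μ ν hX w v N y]; simp
    · refine Integrable.of_bound ((measurable_dens μ ν hX hY w v N).comp
        measurable_prodMk_right).aestronglyMeasurable (2 ^ N) ?_
      refine Filter.Eventually.of_forall fun x => ?_
      rw [Real.norm_eq_abs, abs_of_nonneg (dens_nonneg μ ν w v N _)]
      exact dens_le μ ν w v N _
    · exact Filter.Eventually.of_forall fun x => dens_nonneg μ ν w v N _
  simp_rw [h2]
  simp

end Coupling

end Pool.Agent.Lib.MP_03548f_an
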