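import Mathlib

/-!
# Stationary limits of averaged couplings
-/

open MeasureTheory Set Filter Topology
open scoped BigOperators BoundedContinuousFunction ENNReal

namespace Pool.Agent.Lib.MP_03548f_an

section Avg

variable {P : Type*} [MeasurableSpace P]

/-- average of the pushforwards of `ξ` under `τ^k`, `k < n + 1` -/
noncomputable def avg (τ : P → P) (ξ : Measure P) (n : ℕ) : Measure P :=
  ((n + 1 : ℕ) : ℝ≥0∞)⁻¹ • ∑ k ∈ Finset.range (n + 1), ξ.map (τ^[k])

variable {τ : P → P} (hτ : Measurable τ) (ξ : Measure P) [IsProbabilityMeasure ξ] (n : ℕ)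

include hτ

omit [IsProbabilityMeasure ξ] in
lemma avg_apply {C : Set P} (hC : MeasurableSet C) :
    avg τ ξ n C = ((n + 1 : ℕ) : ℝ≥0∞)⁻¹ * ∑ k ∈ Finset.range (n + 1), ξ (τ^[k] ⁻¹' C) := by
  unfold avg
  rw [Measure.smul_apply, Measure.finsetSum_apply, smul_eq_mul]
  congr 1
  refine Finset.sum_congr rfl fun k _ => ?_
  rw [Measure.map_apply (hτ.iterate k) hC]

lemma avg_prob : IsProbabilityMeasure (avg τ ξ n) := by
  constructor
  rw [avg_apply hτ ξ n MeasurableSet.univ]
  simp only [preimage_univ, measure_univ, Finset.sum_const, Finset.card_range, nsmul_eq_mul,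
    mul_one]
  exact ENNReal.inv_mul_cancel (by simp) (ENNReal.natCast_ne_top _)

lemma avg_integral [TopologicalSpace P] [OpensMeasurableSpace P] (F : P →ᵇ ℝ) :
    ∫ p, F p ∂(avg τ ξ n) =
      ((n + 1 : ℕ) : ℝ)⁻¹ * ∑ k ∈ Finset.range (n + 1), ∫ p, F (τ^[k] p) ∂ξ := by
  unfold avg
  rw [integral_smul_measure, integral_finsetSum_measure]
  · rw [ENNReal.toReal_inv, ENNReal.toReal_natCast, smul_eq_mul]
    congr 1
    refine Finset.sum_congr rfl fun k _ => ?_
    rw [integral_map (hτ.iterate k).aemeasurable]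
    exact F.continuous.measurable.aestronglyMeasurable
  · intro k _
    have : IsProbabilityMeasure (ξ.map (τ^[k])) :=
      Measure.isProbabilityMeasure_map (hτ.iterate k).aemeasurable
    exact F.integrable _

lemma avg_almost_invariant [TopologicalSpace P] [OpensMeasurableSpace P] (hc : Continuous τ)
    (F : P →ᵇ ℝ) :
    |∫ p, F (τ p) ∂(avg τ ξ n) - ∫ p, F p ∂(avg τ ξ n)| ≤ 2 * ‖F‖ * ((n + 1 : ℕ) : ℝ)⁻¹ := by
  have h1 := avg_integral hτ ξ n F
  have h2 := avg_integral hτ ξ n (F.compContinuous ⟨τ, hc⟩)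
  simp only [BoundedContinuousFunction.compContinuous_apply, ContinuousMap.coe_mk] at h2
  rw [h1, h2, ← mul_sub, ← Finset.sum_sub_distrib]
  have h3 : ∑ k ∈ Finset.range (n + 1), (∫ p, F (τ (τ^[k] p)) ∂ξ - ∫ p, F (τ^[k] p) ∂ξ) =
      ∫ p, F (τ^[n + 1] p) ∂ξ - ∫ p, F (τ^[0] p) ∂ξ := by
    rw [← Finset.sum_range_sub (fun k => ∫ p, F (τ^[k] p) ∂ξ)]
    refine Finset.sum_congr rfl fun k _ => ?_
    simp only [Function.iterate_succ_apply']
  rw [h3, abs_mul, abs_of_nonneg (by positivity : (0:ℝ) ≤ ((n + 1 : ℕ) : ℝ)⁻¹), mul_comm]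
  refine mul_le_mul_of_nonneg_right ?_ (by positivity)
  have hb : ∀ k, |∫ p, F (τ^[k] p) ∂ξ| ≤ ‖F‖ := by
    intro k
    have h5 : ‖∫ p, F (τ^[k] p) ∂ξ‖ ≤ ‖F‖ * (ξ.real univ) :=
      norm_integral_le_of_norm_le_const (Eventually.of_forall fun p => F.norm_coe_le_norm _)
    simpa using h5
  calc _ ≤ |∫ p, F (τ^[n + 1] p) ∂ξ| + |∫ p, F (τ^[0] p) ∂ξ| := abs_sub _ _
    _ ≤ 2 * ‖F‖ := by linarith [hb (n + 1), hb 0]

end Avg

section Main

variable {E F : Type*} [MeasurableSpace E] [MeasurableSpace F] [TopologicalSpace E]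
  [TopologicalSpace F] [PolishSpace E] [PolishSpace F] [BorelSpace E] [BorelSpace F]

/-- Given couplings `ξ N` of two invariant probability measures, there is an invariant coupling
`ξ∞` such that for the given clopen set `C`, the mass of `C` is at least the lower bound of the
averages of the masses of the preimages of `C`. -/
theorem exists_stationary {σ₁ : E → E} {σ₂ : F → F} (h₁ : Continuous σ₁) (h₂ : Continuous σ₂)
    (μ : Measure E) (ν : Measure F) [IsProbabilityMeasure μ] [IsProbabilityMeasure ν]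
    (hμ : MeasurePreserving σ₁ μ μ) (hν : MeasurePreserving σ₂ ν ν)
    (ξ : ℕ → Measure (E × F)) (hfst : ∀ N, (ξ N).map Prod.fst = μ)
    (hsnd : ∀ N, (ξ N).map Prod.snd = ν) {C : Set (E × F)} (hC : IsClopen C) (r : ℝ≥0∞)
    (hr : ∀ N k, k ≤ N → r ≤ ξ N ((Prod.map σ₁ σ₂)^[k] ⁻¹' C)) :
    ∃ ξ' : Measure (E × F), IsProbabilityMeasure ξ' ∧
      MeasurePreserving (Prod.map σ₁ σ₂) ξ' ξ' ∧ ξ'.map Prod.fst = μ ∧ ξ'.map Prod.snd = ν ∧
      r ≤ ξ' C := by
  set τ : E × F → E × F := Prod.map σ₁ σ₂ with hτdef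
  have hτc : Continuous τ := h₁.prodMap h₂
  have hτ : Measurable τ := hτc.measurable
  have hprob : ∀ N, IsProbabilityMeasure (ξ N) := by
    intro N
    constructor
    have h1 : (ξ N).map Prod.fst univ = 1 := by rw [hfst N]; exact measure_univ
    rwa [Measure.map_apply measurable_fst MeasurableSet.univ, preimage_univ] at h1
  let a : ℕ → ProbabilityMeasure (E × F) := fun N => ⟨avg τ (ξ N) N, avg_prob hτ (ξ N) N⟩
  -- marginals of the averages
  have hiter : ∀ k, τ^[k] = Prod.map (σ₁^[k]) (σ₂^[k]) := fun k => Prod.map_iterate σ₁ σ₂ k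
  have hafst : ∀ N, (avg τ (ξ N) N).map Prod.fst = μ := by
    intro N
    ext S hS
    rw [Measure.map_apply measurable_fst hS, avg_apply hτ (ξ N) N (measurable_fst hS)]
    have h1 : ∀ k, ξ N (τ^[k] ⁻¹' (Prod.fst ⁻¹' S)) = μ S := by
      intro k
      have h2 : τ^[k] ⁻¹' (Prod.fst ⁻¹' S) = Prod.fst ⁻¹' (σ₁^[k] ⁻¹' S) := by
        rw [hiter]; rfl
      rw [h2, ← Measure.map_apply measurable_fst ((h₁.measurable.iterate k) hS), hfst N,
        (hμ.iterate k).measure_preimage hS.nullMeasurableSet]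
    simp only [h1, Finset.sum_const, Finset.card_range, nsmul_eq_mul]
    rw [← mul_assoc, ENNReal.inv_mul_cancel (by simp) (ENNReal.natCast_ne_top _), one_mul]
  have hasnd : ∀ N, (avg τ (ξ N) N).map Prod.snd = ν := by
    intro N
    ext S hS
    rw [Measure.map_apply measurable_snd hS, avg_apply hτ (ξ N) N (measurable_snd hS)]
    have h1 : ∀ k, ξ N (τ^[k] ⁻¹' (Prod.snd ⁻¹' S)) = ν S := by
      intro k
      have h2 : τ^[k] ⁻¹' (Prod.snd ⁻¹' S) = Prod.snd ⁻¹' (σ₂^[k] ⁻¹' S) := by
        rw [hiter]; rfl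
      rw [h2, ← Measure.map_apply measurable_snd ((h₂.measurable.iterate k) hS), hsnd N,
        (hν.iterate k).measure_preimage hS.nullMeasurableSet]
    simp only [h1, Finset.sum_const, Finset.card_range, nsmul_eq_mul]
    rw [← mul_assoc, ENNReal.inv_mul_cancel (by simp) (ENNReal.natCast_ne_top _), one_mul]
  -- compactness
  let S : Set (ProbabilityMeasure (E × F)) := Set.range a
  have htight : IsTightMeasureSet {((m : ProbabilityMeasure (E × F)) : Measure (E × F)) | m ∈ S} := by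
    refine IsTightMeasureSet.prodMk ?_ ?_
    · refine (isTightMeasureSet_singleton (μ := μ)).subset ?_
      rintro _ ⟨_, ⟨m', hm', rfl⟩, rfl⟩
      obtain ⟨N, rfl⟩ := hm'
      exact hafst N
    · refine (isTightMeasureSet_singleton (μ := ν)).subset ?_
      rintro _ ⟨_, ⟨m', hm', rfl⟩, rfl⟩
      obtain ⟨N, rfl⟩ := hm'
      exact hasnd N
  have hcomp : IsCompact (closure S) := isCompact_closure_of_isTightMeasureSet htight
  obtain ⟨m, hm, hlim⟩ : ∃ m ∈ closure S, Tendsto a (hyperfilter ℕ : Filter ℕ) (𝓝 m) := by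
    have := hcomp.ultrafilter_le_nhds ((hyperfilter ℕ).map a) (by
      rw [Filter.le_principal_iff]
      exact Filter.mem_map.mpr (Filter.univ_mem' fun N => subset_closure ⟨N, rfl⟩))
    exact this
  have hle : (hyperfilter ℕ : Filter ℕ) ≤ atTop := by
    rw [← Nat.cofinite_eq_atTop]; exact hyperfilter_le_cofinite
  refine ⟨m, inferInstance, ?_, ?_, ?_, ?_⟩
  · -- invariance
    refine ⟨hτ, ?_⟩
    have : IsProbabilityMeasure ((m : Measure (E × F)).map τ) :=
      Measure.isProbabilityMeasure_map hτ.aemeasurable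
    refine ext_of_forall_integral_eq_of_IsFiniteMeasure fun G => ?_
    rw [integral_map hτ.aemeasurable G.continuous.measurable.aestronglyMeasurable]
    have l1 : Tendsto (fun N => ∫ p, G p ∂(avg τ (ξ N) N)) (hyperfilter ℕ : Filter ℕ)
        (𝓝 (∫ p, G p ∂(m : Measure (E × F)))) :=
      (ProbabilityMeasure.tendsto_iff_forall_integral_tendsto.mp hlim) G
    have l2 : Tendsto (fun N => ∫ p, G (τ p) ∂(avg τ (ξ N) N)) (hyperfilter ℕ : Filter ℕ)
        (𝓝 (∫ p, G (τ p) ∂(m : Measure (E × F)))) :=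
      (ProbabilityMeasure.tendsto_iff_forall_integral_tendsto.mp hlim)
        (G.compContinuous ⟨τ, hτc⟩)
    have l3 : Tendsto (fun N => ∫ p, G (τ p) ∂(avg τ (ξ N) N) - ∫ p, G p ∂(avg τ (ξ N) N))
        (hyperfilter ℕ : Filter ℕ) (𝓝 0) := by
      have hb : Tendsto (fun N : ℕ => 2 * ‖G‖ * ((N + 1 : ℕ) : ℝ)⁻¹) atTop (𝓝 0) := by
        have h0 : Tendsto (fun N : ℕ => ((N + 1 : ℕ) : ℝ)⁻¹) atTop (𝓝 0) :=
          (tendsto_inv_atTop_zero.comp tendsto_natCast_atTop_atTop).comp (tendsto_add_atTop_nat 1)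
        simpa using h0.const_mul (2 * ‖G‖)
      refine squeeze_zero_norm (fun N => ?_) (hb.mono_left hle)
      rw [Real.norm_eq_abs]
      exact avg_almost_invariant hτ (ξ N) N hτc G
    have l4 := l2.sub l1
    have := tendsto_nhds_unique l4 l3
    linarith
  · -- first marginal
    have h := ProbabilityMeasure.tendsto_map_of_tendsto_of_continuous a m hlim
      (continuous_fst (X := E) (Y := F))
    have hconst : ∀ N, (a N).map (continuous_fst (X := E) (Y := F)).measurable.aemeasurable =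
        ⟨μ, inferInstance⟩ := by
      intro N
      apply Subtype.ext
      exact hafst N
    simp only [hconst] at h
    have h2 := tendsto_nhds_unique h tendsto_const_nhds
    have h3 := congrArg Subtype.val h2
    exact h3
  · have h := ProbabilityMeasure.tendsto_map_of_tendsto_of_continuous a m hlim
      (continuous_snd (X := E) (Y := F))
    have hconst : ∀ N, (a N).map (continuous_snd (X := E) (Y := F)).measurable.aemeasurable =
        ⟨ν, inferInstance⟩ := by
      intro N
      apply Subtype.ext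
      exact hasnd N
    simp only [hconst] at h
    have h2 := tendsto_nhds_unique h tendsto_const_nhds
    have h3 := congrArg Subtype.val h2
    exact h3
  · have hf : (m : Measure (E × F)) (frontier C) = 0 := by
      rw [hC.frontier_eq]; simp
    have h := ProbabilityMeasure.tendsto_measure_of_null_frontier_of_tendsto' hlim hf
    refine ge_of_tendsto h (Eventually.of_forall fun N => ?_)
    change r ≤ avg τ (ξ N) N C
    rw [avg_apply hτ (ξ N) N hC.isClosed.measurableSet]
    have h1 : ((N + 1 : ℕ) : ℝ≥0∞) * r ≤ ∑ k ∈ Finset.range (N + 1), ξ N (τ^[k] ⁻¹' C) := by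
      have h2 : ∑ _k ∈ Finset.range (N + 1), r = ((N + 1 : ℕ) : ℝ≥0∞) * r := by
        simp
      rw [← h2]
      refine Finset.sum_le_sum fun k hk => hr N k ?_
      have := Finset.mem_range.mp hk
      omega
    calc r = ((N + 1 : ℕ) : ℝ≥0∞)⁻¹ * (((N + 1 : ℕ) : ℝ≥0∞) * r) := by
          rw [← mul_assoc, ENNReal.inv_mul_cancel (by simp) (ENNReal.natCast_ne_top _), one_mul]
      _ ≤ _ := by gcongr

end Main

end Pool.Agent.Lib.MP_03548f_an
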