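import Pool.Agent.Lib.MP_03548f_an.Coupling

/-!
# Uniform lower bounds for the conditional variances from positive entropy
-/

open MeasureTheory Set
open scoped BigOperators

namespace Pool.Agent.Lib.MP_03548f_an

/-- the shift on sequences -/
def sh (x : ℕ → ℕ) (n : ℕ) : ℕ := x (n + 1)

lemma sh_iterate (k : ℕ) (x : ℕ → ℕ) : sh^[k] x = fun n => x (n + k) := by
  induction k with
  | zero => rfl
  | succ k ih =>
    rw [Function.iterate_succ_apply', ih]
    funext n
    simp only [sh]
    congr 1
    omega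

lemma measurable_sh : Measurable sh := measurable_pi_lambda _ fun n => measurable_pi_apply (n + 1)

lemma continuous_sh : Continuous sh := continuous_pi fun n => continuous_apply (n + 1)

/-- abstract selection of a letter with uniformly positive conditional variance -/
lemma exists_letter {A : Type*} [Fintype A] (v : A → ℕ → ℝ) (hv0 : ∀ a n, 0 ≤ v a n)
    (hva : ∀ a, Antitone (v a)) (H : ℕ → ℝ) (hH0 : H 0 ≤ 0) {c : ℝ} (hc : 0 < c)
    (hcH : ∀ n : ℕ, c * n ≤ H n)
    (hstep : ∀ ε > 0, ∀ n, H (n + 1) - H n ≤ ε * (Fintype.card A) + (∑ a, v a n) / ε) :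
    ∃ a, ∃ s > 0, ∀ n, s ≤ v a n := by
  have hbdd : ∀ a, BddBelow (Set.range (v a)) := fun a => ⟨0, by rintro _ ⟨n, rfl⟩; exact hv0 a n⟩
  have hlim : ∀ a, Filter.Tendsto (v a) Filter.atTop (nhds (⨅ n, v a n)) :=
    fun a => tendsto_atTop_ciInf (hva a) (hbdd a)
  set L : A → ℝ := fun a => ⨅ n, v a n with hL
  have hL0 : ∀ a, 0 ≤ L a := fun a => le_ciInf (hv0 a)
  have hLle : ∀ a n, L a ≤ v a n := fun a n => ciInf_le (hbdd a) n
  by_contra hcon
  push Not at hcon
  have hLz : ∀ a, L a = 0 := by
    intro a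
    by_contra h
    have hpos : 0 < L a := lt_of_le_of_ne (hL0 a) (Ne.symm h)
    obtain ⟨n, hn⟩ := hcon a (L a) hpos
    exact absurd (hLle a n) (not_le.mpr hn)
  -- card A > 0
  have hsum : Filter.Tendsto (fun n => ∑ a, v a n) Filter.atTop (nhds 0) := by
    have := tendsto_finsetSum (Finset.univ : Finset A) (fun a _ => hlim a)
    simpa [← hL, hLz] using this
  have hces := hsum.cesaro
  set K : ℝ := (Fintype.card A : ℝ) with hK
  have hK0 : 0 ≤ K := Nat.cast_nonneg _
  set ε : ℝ := c / (2 * (K + 1)) with hε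
  have hεpos : 0 < ε := by positivity
  have hεK : ε * K ≤ c / 2 := by
    rw [hε, div_mul_eq_mul_div, div_le_div_iff₀ (by positivity) (by norm_num)]
    nlinarith
  have htel : ∀ N : ℕ, H N ≤ N * (ε * K) + (∑ n ∈ Finset.range N, ∑ a, v a n) / ε := by
    intro N
    induction N with
    | zero => simpa using hH0
    | succ N ih =>
      have h1 := hstep ε hεpos N
      rw [Finset.sum_range_succ, add_div]
      push_cast
      linarith
  have hlow : ∀ N : ℕ, 0 < N → ε * (c / 2) ≤ (N : ℝ)⁻¹ * ∑ n ∈ Finset.range N, ∑ a, v a n := by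
    intro N hN
    have hN' : (0 : ℝ) < N := Nat.cast_pos.mpr hN
    have h1 := (hcH N).trans (htel N)
    have h2 : N * (ε * K) ≤ N * (c / 2) := mul_le_mul_of_nonneg_left hεK hN'.le
    have h3 : N * (c / 2) ≤ (∑ n ∈ Finset.range N, ∑ a, v a n) / ε := by
      have : c * N = N * (c / 2) + N * (c / 2) := by ring
      linarith
    rw [le_div_iff₀ hεpos] at h3
    rw [inv_mul_eq_div, le_div_iff₀ hN']
    linarith
  have hge : ε * (c / 2) ≤ 0 := by
    refine ge_of_tendsto hces ?_
    filter_upwards [Filter.eventually_gt_atTop 0] with N hN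
    exact hlow N hN
  have : 0 < ε * (c / 2) := by positivity
  linarith

section Shift

variable (μ : Measure (ℕ → ℕ)) [IsProbabilityMeasure μ]

omit [IsProbabilityMeasure μ] in
lemma real_preimage {Ω Ω' : Type*} [MeasurableSpace Ω] [MeasurableSpace Ω'] {μ : Measure Ω}
    {μ' : Measure Ω'} {T : Ω → Ω'} (hT : MeasurePreserving T μ μ') {S : Set Ω'}
    (hS : MeasurableSet S) : μ.real (T ⁻¹' S) = μ'.real S := by
  rw [measureReal_def, measureReal_def, hT.measure_preimage hS.nullMeasurableSet]

lemma cvar_comp {Ω : Type*} [MeasurableSpace Ω] {μ : Measure Ω} [IsProbabilityMeasure μ]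
    {T : Ω → Ω} (hT : MeasurePreserving T μ μ) {𝒵 : Type*} [Fintype 𝒵] [MeasurableSpace 𝒵]
    [MeasurableSingletonClass 𝒵] {S : Set Ω} (hS : MeasurableSet S) {Z : Ω → 𝒵}
    (hZ : Measurable Z) : cvar μ (T ⁻¹' S) (Z ∘ T) = cvar μ S Z := by
  have hcp : ∀ z, cp μ (T ⁻¹' S) (Z ∘ T) z = cp μ S Z z := by
    intro z
    unfold cp
    have h1 : T ⁻¹' S ∩ (Z ∘ T) ⁻¹' {z} = T ⁻¹' (S ∩ Z ⁻¹' {z}) := rfl
    have h2 : (Z ∘ T) ⁻¹' {z} = T ⁻¹' (Z ⁻¹' {z}) := rfl
    rw [h1, h2, real_preimage hT (hS.inter (hZ (measurableSet_singleton z))),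
      real_preimage hT (hZ (measurableSet_singleton z))]
  rw [cvar_eq_sum μ (hT.measurable hS) (hZ.comp hT.measurable), cvar_eq_sum μ hS hZ]
  refine Finset.sum_congr rfl fun z _ => ?_
  rw [hcp]
  have h2 : (Z ∘ T) ⁻¹' {z} = T ⁻¹' (Z ⁻¹' {z}) := rfl
  rw [h2, real_preimage hT (hZ (measurableSet_singleton z))]

variable {m : ℕ} (f : ℕ → Fin m)

/-- the coarsened coordinate process -/
def co (n : ℕ) (x : ℕ → ℕ) : Fin m := f (x n)

lemma measurable_co (n : ℕ) : Measurable (co f n) :=
  (measurable_from_nat (f := f)).comp (measurable_pi_apply n)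

/-- the word `(f x_1, …, f x_n)` -/
def fut (n : ℕ) (x : ℕ → ℕ) : Fin n → Fin m := fun i => f (x (i + 1))

lemma measurable_fut (n : ℕ) : Measurable (fut f n) :=
  measurable_pi_lambda _ fun i => measurable_co f (i + 1)

/-- block entropies -/
noncomputable def bent (n : ℕ) : ℝ := ∑ w : Fin n → Fin m,
  Real.negMulLog ((μ {x : ℕ → ℕ | ∀ i : Fin n, f (x i.val) = w i}).toReal)

omit [IsProbabilityMeasure μ] in
lemma bent_eq (n : ℕ) :
    bent μ f n = ∑ w : Fin n → Fin m, Real.negMulLog (μ.real (word (co f) n ⁻¹' {w})) := by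
  unfold bent
  refine Finset.sum_congr rfl fun w _ => ?_
  have : {x : ℕ → ℕ | ∀ i : Fin n, f (x i.val) = w i} = word (co f) n ⁻¹' {w} := by
    ext x
    simp only [Set.mem_ofPred_eq, mem_preimage, mem_singleton_iff]
    exact ⟨fun h => funext h, fun h i => congrFun h i⟩
  rw [this]; rfl

lemma bent_zero : bent μ f 0 = 0 := by
  rw [bent_eq]
  have : ∀ w : Fin 0 → Fin m, word (co f) 0 ⁻¹' {w} = univ := by
    intro w
    ext x
    simp only [mem_preimage, mem_singleton_iff, mem_univ, iff_true]
    exact Subsingleton.elim _ _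
  simp [this]

omit [IsProbabilityMeasure μ] in
/-- splitting off the last letter -/
lemma bent_succ_last (n : ℕ) : bent μ f (n + 1) =
    ∑ z, ∑ a, Real.negMulLog (μ.real (co f n ⁻¹' {a} ∩ word (co f) n ⁻¹' {z})) := by
  rw [bent_eq, ← (Fin.snocEquiv (fun _ : Fin (n + 1) => Fin m)).sum_comp, Fintype.sum_prod_type_right]
  refine Finset.sum_congr rfl fun z _ => Finset.sum_congr rfl fun a _ => ?_
  congr 2
  ext x
  simp only [mem_preimage, mem_singleton_iff, mem_inter_iff]
  constructor
  · intro h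
    constructor
    · have := congrFun h (Fin.last n)
      simpa [word, Fin.snocEquiv] using this
    · funext i
      have := congrFun h i.castSucc
      simpa [word, Fin.snocEquiv] using this
  · rintro ⟨h1, h2⟩
    funext i
    refine Fin.lastCases ?_ (fun i => ?_) i
    · simpa [word, Fin.snocEquiv] using h1
    · have := congrFun h2 i
      simpa [word, Fin.snocEquiv] using this

omit [IsProbabilityMeasure μ] in
/-- splitting off the first letter -/
lemma bent_succ_first (n : ℕ) : bent μ f (n + 1) =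
    ∑ z, ∑ a, Real.negMulLog (μ.real (co f 0 ⁻¹' {a} ∩ fut f n ⁻¹' {z})) := by
  rw [bent_eq, ← (Fin.consEquiv (fun _ : Fin (n + 1) => Fin m)).sum_comp, Fintype.sum_prod_type_right]
  refine Finset.sum_congr rfl fun z _ => Finset.sum_congr rfl fun a _ => ?_
  congr 2
  ext x
  simp only [mem_preimage, mem_singleton_iff, mem_inter_iff]
  constructor
  · intro h
    constructor
    · have := congrFun h 0
      simpa [word, Fin.consEquiv] using this
    · funext i
      have := congrFun h i.succ
      simpa [word, Fin.consEquiv, fut, co] using this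
  · rintro ⟨h1, h2⟩
    funext i
    refine Fin.cases ?_ (fun i => ?_) i
    · simpa [word, Fin.consEquiv] using h1
    · have := congrFun h2 i
      simpa [word, Fin.consEquiv, fut, co] using this

variable (hμ : MeasurePreserving sh μ μ)

include hμ

omit [IsProbabilityMeasure μ] in
lemma bent_fut (n : ℕ) : bent μ f n = ∑ z, Real.negMulLog (μ.real (fut f n ⁻¹' {z})) := by
  rw [bent_eq]
  refine Finset.sum_congr rfl fun z _ => ?_
  congr 1
  have : fut f n ⁻¹' {z} = sh ⁻¹' (word (co f) n ⁻¹' {z}) := rfl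
  rw [this, real_preimage hμ]
  exact measurable_word (measurable_co f) n (measurableSet_singleton z)

/-- forward version: conditioning on the past block -/
lemma exists_forward {c : ℝ} (hc : 0 < c) (hcH : ∀ n : ℕ, c * n ≤ bent μ f n) :
    ∃ a, ∃ s > 0, ∀ n, s ≤ mv μ (co f) a n := by
  refine exists_letter (fun a n => mv μ (co f) a n) (fun a n => cvar_nonneg μ _ _) ?_ (bent μ f)
    (bent_zero μ f).le hc hcH ?_
  · intro a
    refine antitone_nat_of_succ_le fun n => ?_
    have hS : MeasurableSet (co f (n + 1) ⁻¹' {a}) :=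
      measurable_co f (n + 1) (measurableSet_singleton a)
    have h1 := cvar_anti μ hS (measurable_word (measurable_co f) (n + 1))
      (fun c : Fin (n + 1) → Fin m => fun i : Fin n => c i.succ)
    have h2 : (fun c : Fin (n + 1) → Fin m => fun i : Fin n => c i.succ) ∘ word (co f) (n + 1) =
        word (co f) n ∘ sh := by
      funext x i
      simp [word, co, sh]
    have h3 : co f (n + 1) ⁻¹' {a} = sh ⁻¹' (co f n ⁻¹' {a}) := rfl
    rw [h2] at h1
    nth_rewrite 2 [h3] at h1
    rw [cvar_comp hμ (measurable_co f n (measurableSet_singleton a))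
      (measurable_word (measurable_co f) n)] at h1
    exact h1
  · intro ε hε n
    have h := entropy_le μ (measurable_co f n) (measurable_word (measurable_co f) n) hε
    rw [bent_succ_last, bent_eq μ f n]
    exact h

/-- backward version: conditioning on the future block -/
lemma exists_backward {c : ℝ} (hc : 0 < c) (hcH : ∀ n : ℕ, c * n ≤ bent μ f n) :
    ∃ a, ∃ s > 0, ∀ n, s ≤ cvar μ (co f 0 ⁻¹' {a}) (fut f n) := by
  refine exists_letter (fun a n => cvar μ (co f 0 ⁻¹' {a}) (fut f n))
    (fun a n => cvar_nonneg μ _ _) ?_ (bent μ f) (bent_zero μ f).le hc hcH ?_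
  · intro a
    refine antitone_nat_of_succ_le fun n => ?_
    have hS : MeasurableSet (co f 0 ⁻¹' {a}) := measurable_co f 0 (measurableSet_singleton a)
    exact cvar_anti μ hS (measurable_fut f (n + 1))
      (fun c : Fin (n + 1) → Fin m => fun i : Fin n => c i.castSucc)
  · intro ε hε n
    have h := entropy_le μ (measurable_co f 0) (measurable_fut f n) hε
    rw [bent_succ_first, bent_fut μ f hμ n]
    exact h

/-- The reversed coordinate process on the window `[0, N)`. -/
lemma mv_reversed (a : Fin m) {N j : ℕ} (hj : j < N) {s : ℝ}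
    (hs : s ≤ cvar μ (co f 0 ⁻¹' {a}) (fut f j)) :
    s ≤ mv μ (fun i => co f (N - 1 - i)) a j := by
  set r := N - 1 - j with hr
  have hTr : MeasurePreserving (sh^[r]) μ μ := hμ.iterate r
  have h1 : co f r ⁻¹' {a} = sh^[r] ⁻¹' (co f 0 ⁻¹' {a}) := by
    ext x
    simp [co, sh_iterate]
  have h2 : word (fun i => co f (N - 1 - i)) j =
      ((fun c : Fin j → Fin m => fun i : Fin j => c (Fin.rev i)) ∘ fut f j) ∘ sh^[r] := by
    funext x i
    simp only [word, co, fut, Function.comp, sh_iterate]
    congr 2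
    have := i.isLt
    rw [Fin.val_rev]
    omega
  have hS : MeasurableSet (co f 0 ⁻¹' {a}) := measurable_co f 0 (measurableSet_singleton a)
  have h3 : mv μ (fun i => co f (N - 1 - i)) a j =
      cvar μ (co f 0 ⁻¹' {a})
        ((fun c : Fin j → Fin m => fun i : Fin j => c (Fin.rev i)) ∘ fut f j) := by
    unfold mv
    rw [h2]
    have : (fun i => co f (N - 1 - i)) j ⁻¹' {a} = sh^[r] ⁻¹' (co f 0 ⁻¹' {a}) := by
      rw [← h1]
    rw [this]
    exact cvar_comp hTr hS ((measurable_of_finite _).comp (measurable_fut f j))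
  rw [h3]
  exact hs.trans (cvar_anti μ hS (measurable_fut f j) _) |>.trans (le_refl _)

end Shift

end Pool.Agent.Lib.MP_03548f_an
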